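import Pool.Agent.helper52.HY.Spec

/-! hy:FBD. A family satisfies `hd ≤ 1/4`. -/

set_option autoImplicit false

open Complex Metric Set Filter Topology MeasureTheory
open Pool.Agent.helper98.ILF Pool.Agent.helper16.Multibrot

noncomputable section

namespace HY

theorem FBD_sum (a : ℕ → ℝ) (i l j : ℕ) (hil : i ≤ l) (b : ℝ) (hb : 0 ≤ b) (ha : ∀ q, i ≤ q → q < j → 0 < a q ∧ a q ≤ b) :
    ∑ q ∈ Finset.Ico l j, a q ^ 2 ≤ b ^ 2 + ∑ q ∈ Finset.Ioo i j, a q ^ 2 := by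
  have h1 : ∑ q ∈ Finset.Ico l j, a q ^ 2 ≤ ∑ q ∈ Finset.Ico i j, a q ^ 2 := by
    apply Finset.sum_le_sum_of_subset_of_nonneg
    · intro q hq
      rw [Finset.mem_Ico] at hq ⊢
      omega
    · intro q _ _
      exact sq_nonneg _
  refine h1.trans ?_
  by_cases hij : i < j
  · have h2 : Finset.Ico i j = insert i (Finset.Ioo i j) := by
      ext q
      rw [Finset.mem_insert, Finset.mem_Ico, Finset.mem_Ioo]
      omega
    rw [h2, Finset.sum_insert (by simp)]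
    have h3 := ha i le_rfl hij
    have h4 : a i ^ 2 ≤ b ^ 2 := pow_le_pow_left₀ h3.1.le h3.2 2
    linarith
  · have h2 : Finset.Ico i j = ∅ := by
      rw [Finset.Ico_eq_empty_iff]
      exact hij
    rw [h2, Finset.sum_empty]
    have : 0 ≤ ∑ q ∈ Finset.Ioo i j, a q ^ 2 := Finset.sum_nonneg (fun q _ => sq_nonneg _)
    positivity

theorem FBD (hCNH : CNH_stmt) (hSMH : SMH_stmt) (hFIT : FIT_stmt) : FBD_stmt := by
  intro n hn r hr l₀ hl₀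
  obtain ⟨N, hN⟩ := hCNH n hn r hr l₀ hl₀
  have hK : (0 : ℝ) < 32 * n ^ 2 * (2 * N + 1) := by
    have : (0 : ℝ) < n := by
      have : 0 < n := by omega
      exact_mod_cast this
    positivity
  have hlog : 0 < Real.log 2 := Real.log_pos (by norm_num)
  obtain ⟨M₀, hM₀⟩ := exists_pow_lt_of_lt_one (div_pos hlog hK) (by norm_num : (1 / 2 : ℝ) < 1)
  refine ⟨M₀, ?_⟩
  intro M hM c hc hdis V φ hRM y j i H hOrb hFam l hil hlj x hx
  have hMle : (1 / 2 : ℝ) ^ M ≤ (1 / 2 : ℝ) ^ M₀ := pow_le_pow_of_le_one (by norm_num) (by norm_num) hM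
  have hM1 : (1 / 2 : ℝ) ^ M ≤ 1 := pow_le_one₀ (by norm_num) (by norm_num)
  have hMpos : (0 : ℝ) < (1 / 2 : ℝ) ^ M := by positivity
  have ha : ∀ q, i ≤ q → q < j → 0 < 1 - ‖y q‖ ∧ 1 - ‖y q‖ ≤ (1 / 2 : ℝ) ^ M := by
    intro q _ hqj
    refine ⟨?_, hOrb.far q hqj⟩
    have h1 := hOrb.mem q hqj.le
    unfold UD at h1
    rw [mem_ball_zero_iff] at h1
    linarith
  have h1 := FBD_sum (fun q => 1 - ‖y q‖) i l j hil ((1 / 2 : ℝ) ^ M) hMpos.le ha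
  have h2 : ∑ q ∈ Finset.Ioo i j, (1 - ‖y q‖) ^ 2 ≤ 2 * N * (1 / 2 : ℝ) ^ M := by
    apply hSMH N M (Finset.Ioo i j) (fun q => 1 - ‖y q‖)
    · intro q hq
      rw [Finset.mem_Ioo] at hq
      exact ha q hq.1.le hq.2
    · intro m κ hκ hκ2
      apply hN c hc hdis V φ hRM κ H m
      · intro q hq
        have hq1 := hκ hq
        rw [Finset.mem_Ioo] at hq1
        have hq2 := hκ2 q hq
        have hv := hFam.val q hq1.1.le hq1.2.le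
        rw [hv]
        exact ⟨hFam.un q hq1.1.le hq1.2.le, (hFam.big q hq1.1 hq1.2.le).le, hq2.1, hq2.2⟩
      · intro q hq k hk hqk x hx
        have hq1 := hκ hq
        have hk1 := hκ hk
        rw [Finset.mem_Ioo] at hq1 hk1
        exact hFIT n c φ l₀ y j i H hFam q k hq1.1.le hqk.le hk1.2.le x hx
  have h3 : ∑ q ∈ Finset.Ico l j, (1 - ‖y q‖) ^ 2 ≤ (2 * N + 1) * (1 / 2 : ℝ) ^ M := by
    have h4 : ((1 / 2 : ℝ) ^ M) ^ 2 ≤ (1 / 2 : ℝ) ^ M := by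
      rw [sq]
      calc (1 / 2 : ℝ) ^ M * (1 / 2 : ℝ) ^ M ≤ 1 * (1 / 2 : ℝ) ^ M := mul_le_mul_of_nonneg_right hM1 hMpos.le
        _ = (1 / 2 : ℝ) ^ M := one_mul _
    calc ∑ q ∈ Finset.Ico l j, (1 - ‖y q‖) ^ 2 ≤ ((1 / 2 : ℝ) ^ M) ^ 2 + ∑ q ∈ Finset.Ioo i j, (1 - ‖y q‖) ^ 2 := h1
      _ ≤ (1 / 2 : ℝ) ^ M + 2 * N * (1 / 2 : ℝ) ^ M := add_le_add h4 h2
      _ = (2 * N + 1) * (1 / 2 : ℝ) ^ M := by ring
  have h5 : 32 * (n : ℝ) ^ 2 * ∑ q ∈ Finset.Ico l j, (1 - ‖y q‖) ^ 2 ≤ Real.log 2 := by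
    calc 32 * (n : ℝ) ^ 2 * ∑ q ∈ Finset.Ico l j, (1 - ‖y q‖) ^ 2
        ≤ 32 * (n : ℝ) ^ 2 * ((2 * N + 1) * (1 / 2 : ℝ) ^ M) := mul_le_mul_of_nonneg_left h3 (by positivity)
      _ = 32 * (n : ℝ) ^ 2 * (2 * N + 1) * (1 / 2 : ℝ) ^ M := by ring
      _ ≤ 32 * (n : ℝ) ^ 2 * (2 * N + 1) * (Real.log 2 / (32 * n ^ 2 * (2 * N + 1))) :=
        mul_le_mul_of_nonneg_left (hMle.trans hM₀.le) hK.le
      _ = Real.log 2 := by field_simp
  have h6 := hFam.bnd l hil hlj x hx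
  have h7 : Real.exp (32 * n ^ 2 * ∑ q ∈ Finset.Ico l j, (1 - ‖y q‖) ^ 2) ≤ 2 := by
    calc _ ≤ Real.exp (Real.log 2) := Real.exp_le_exp.mpr h5
      _ = 2 := Real.exp_log (by norm_num)
  linarith

end HY
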